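import Pool.Agent.H94.G4T.M02
import Pool.Agent.H94.G4T.M03
import Pool.Agent.H94.G4T.M13

/-!
# EL Defs: surfaces over an elliptic curve with a holomorphic `2`-form, normal crossing bad fibres

`X` is the cone (without `0`) over a smooth projective surface, `u` a holomorphic map to `ℂ / Λ` (see EF Defs).  `TForm X Λ u` are the
holomorphic `2`-forms on the surface `{(x, z) : u x = z mod Λ}` (a covering of `X` with group `Λ`).
-/

set_option autoImplicit false

open Topology Filter Metric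

namespace Pool.Agent.H62.EL

open Pool.Agent.H36.BP (EN wd IsGermChart)
open Pool.Agent.H14.PP (IsCone Chart Tan CurveAt)
open Pool.Agent.H62.EF (Lat MN pr TorusMap Sec Charts)

variable {N : ℕ}

/-- the geometric data; `B` is the set of the bad values -/
structure EData (X : Set (EN N)) (Λ : AddSubgroup ℂ) (u : EN N → ℂ) (Γ : AddSubgroup ℂ) (B : Set ℂ) (δ : ℝ) : Prop where
  cone : IsCone X
  charts : Charts X
  tor : TorusMap X Λ u
  lat : Lat Λ
  latΓ : Lat Γ
  le : Γ ≤ Λ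
  bad : BadSet B Λ δ
  zero : ∀ b ∈ B, 4 * δ ≤ ‖b‖
  fib : ∀ F : ℂ → EN N, Differentiable ℂ F → (∀ z, F z ∈ X) → (∀ z w, u (F z) - u (F w) ∈ Λ) →
    (∃ z w, ∀ c : ℂ, F z ≠ c • F w) → ∃ b ∈ B, u (F 0) - b ∈ Λ
  nc : ∀ b ∈ B, ∀ x ∈ X, u x - b ∈ Λ → IsNC X Λ u x b

variable {X : Set (EN N)} {Λ : AddSubgroup ℂ} {u : EN N → ℂ}

/-- `A` is the primitive of the coefficient of the form in the direction of the second variable -/
structure IsPrim (α : TForm X Λ u) (χ : Chart X) (υ A : ℂ × ℂ → ℂ) : Prop where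
  an : ∀ p ∈ ball (0 : ℂ × ℂ) 2, AnalyticAt ℂ A p
  der : ∀ p ∈ ball (0 : ℂ × ℂ) 2, fderiv ℂ A p (0, 1) = tc α χ υ p
  zero : ∀ s : ℂ, ‖s‖ < 2 → A (s, 0) = 0

/-- finitely many charts and open cones -/
structure TubeData (X : Set (EN N)) where
  /-- the number of charts -/
  m : ℕ
  /-- the charts -/
  χ : Fin m → Chart X
  /-- in the chart `χ k` the map `u` is `b + ρ k * s ^ i k * t ^ j k` -/
  ρ : Fin m → ℝ
  /-- exponents -/
  i : Fin m → ℕ
  /-- exponents -/
  j : Fin m → ℕ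
  /-- the open cones -/
  W : Fin m → Set (EN N)

/-- a witness chart, with a radius -/
structure Wit (X : Set (EN N)) where
  /-- the chart -/
  χ : Chart X
  /-- constant -/
  ρ : ℝ
  /-- exponents -/
  i : ℕ
  /-- exponents -/
  j : ℕ
  /-- radius of the part which is used -/
  r : ℝ

/-- the coefficients of the form `- A ds` of the chart `χ` in the chart `χ'` -/
noncomputable def bc (χ : Chart X) (A : ℂ × ℂ → ℂ) (χ' : Chart X) (e : ℂ × ℂ) (p : ℂ × ℂ) : ℂ :=
  -(A (χ.q (χ'.σ p)) * (fderiv ℂ (fun y => χ.q (χ'.σ y)) p e).1)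

end Pool.Agent.H62.EL
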